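import Pool.Agent.CTOR.Final

namespace Pool.Agent.Results.MP_402876_al.TorsionFinite

open CTOR

universe u v

/-- No `CAT(0)` group contains an infinite torsion subgroup: every subgroup of a `CAT(0)` group
all of whose elements have finite order is finite. -/
theorem result (G : Type v) [Group G] (hG : IsCAT0Group.{u} G) (H : Subgroup G)
    (ht : ∀ h ∈ H, IsOfFinOrder h) : Finite H :=
  torsion_finite G hG H ht

end Pool.Agent.Results.MP_402876_al.TorsionFinite
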